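import Pool.Agent.helper53.ORT.Spec

/-!
# Row CM3
-/

set_option autoImplicit false

namespace Pool.Agent.ORT

open Module Pool.Agent.GS

theorem CM3_pow {F V : Type} [Field F] [AddCommGroup V] [Module F V] {z : Equiv.Perm V}
    {e₁ e₂ : V} {M : Matrix (Fin 2) (Fin 2) F}
    (h1 : z e₁ = M 0 0 • e₁ + M 1 0 • e₂) (h2 : z e₂ = M 0 1 • e₁ + M 1 1 • e₂) (i : ℕ)
    (hl : ∀ i : ℕ, Lin F (z ^ i)) :
    (z ^ i) e₁ = (M ^ i) 0 0 • e₁ + (M ^ i) 1 0 • e₂ ∧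
      (z ^ i) e₂ = (M ^ i) 0 1 • e₁ + (M ^ i) 1 1 • e₂ := by
  induction i with
  | zero => simp
  | succ i ih =>
    have hm : ∀ a b : Fin 2, (M ^ (i + 1)) a b = (M ^ i) a 0 * M 0 b + (M ^ i) a 1 * M 1 b := by
      intro a b
      rw [pow_succ, Matrix.mul_apply, Fin.sum_univ_two]
    rw [pow_succ, Equiv.Perm.mul_apply, Equiv.Perm.mul_apply, h1, h2, (hl i).1, (hl i).1,
      (hl i).2, (hl i).2, (hl i).2, (hl i).2, ih.1, ih.2, hm, hm, hm, hm]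
    constructor
    · module
    · module

theorem CM3 (nom : NOM_stmt) : CM3_stmt := by
  intro F V _ _ _ B hch hB y ψ ν hy r T hr hr2 hD hC
  obtain ⟨t, ht, ⟨e₁, e₂, M, hli, hdet, htr, h1, h2⟩, _⟩ := hC
  have hz : y * t * y⁻¹ * t⁻¹ ∈ Om B :=
    (Om B).mul_mem ((nom B y ψ ν hy t).1 ht) ((Om B).inv_mem ht)
  refine ⟨_, hz, Gn.comm ht, ?_⟩
  generalize y * t * y⁻¹ * t⁻¹ = z at hz h1 h2
  have hzp : ∀ i : ℕ, z ^ i ∈ SpG B := fun i => (SpG B).pow_mem (Om_le B hz) i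
  intro j c hc
  have he1 : e₁ ≠ 0 := hli.ne_zero 0
  obtain ⟨w, hw⟩ : ∃ w, B e₁ w ≠ 0 := by
    by_contra hcon
    push Not at hcon
    exact he1 (hB.nd e₁ hcon)
  have hcc : c * c = 1 := by
    have h3 := (hzp j).2 e₁ w
    rw [hc, hc, map_smul, map_smul, LinearMap.smul_apply, smul_eq_mul, smul_eq_mul,
      ← mul_assoc] at h3
    exact mul_right_cancel₀ hw (by rw [h3, one_mul])
  have hid : ∀ v, (z ^ (2 * j)) v = v := by
    intro v
    rw [two_mul, pow_add, Equiv.Perm.mul_apply, hc, hc, smul_smul, hcc, one_smul]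
  obtain ⟨q1, q2⟩ := CM3_pow h1 h2 (2 * j) (fun i => (hzp i).1)
  rw [hid] at q1 q2
  rw [LinearIndependent.pair_iff] at hli
  obtain ⟨a1, a2⟩ := hli ((M ^ (2 * j)) 0 0 - 1) ((M ^ (2 * j)) 1 0) (by
    rw [sub_smul, one_smul, sub_add_eq_add_sub, ← q1, sub_self])
  obtain ⟨b1, b2⟩ := hli ((M ^ (2 * j)) 0 1) ((M ^ (2 * j)) 1 1 - 1) (by
    rw [sub_smul, one_smul, ← add_sub_assoc, ← q2, sub_self])
  have hM : M ^ (2 * j) = 1 := by
    ext a b
    fin_cases a <;> fin_cases b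
    · simpa using sub_eq_zero.1 a1
    · simpa using b1
    · simpa using a2
    · simpa using sub_eq_zero.1 b2
  have h4 := hD M hdet htr (2 * j) hM
  rcases (Nat.Prime.dvd_mul hr).1 h4 with h5 | h5
  · exact absurd ((Nat.prime_dvd_prime_iff_eq hr Nat.prime_two).1 h5) hr2
  · exact h5

end Pool.Agent.ORT
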